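import Pool.Agent.H48.RG.Targets

/-! # HLM: decomposition of a vector field supported in a small ball -/

set_option autoImplicit false

namespace Pool.Agent.H79.RG

open MeasureTheory Metric Set Filter Topology Pool.Agent.H87.SN Pool.Agent.H48.RG
open scoped ContDiff RealInnerProductSpace ENNReal

variable {n : ℕ}

theorem hlm_sD {ψ : E n → ℝ} (h : ContDiff ℝ ∞ ψ) (a : E n) :
    ContDiff ℝ ∞ fun x => fderiv ℝ ψ x a :=
  (h.fderiv_right (by simp)).clm_apply contDiff_const

theorem hlm_cD {ψ : E n → ℝ} (h : HasCompactSupport ψ) (a : E n) :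
    HasCompactSupport fun x => fderiv ℝ ψ x a := h.fderiv_apply (𝕜 := ℝ) a

theorem hlm_comm {ψ : E n → ℝ} (h : ContDiff ℝ ∞ ψ) (a b x : E n) :
    fderiv ℝ (fun y => fderiv ℝ ψ y b) x a = fderiv ℝ (fun y => fderiv ℝ ψ y a) x b := by
  have h1 : ContDiff ℝ ∞ (fderiv ℝ ψ) := h.fderiv_right (by simp)
  have h2 : DifferentiableAt ℝ (fderiv ℝ ψ) x := (h1.differentiable (by simp)) x
  have h3 : ∀ c : E n, ∀ d : E n, fderiv ℝ (fun y => fderiv ℝ ψ y c) x d =
      fderiv ℝ (fderiv ℝ ψ) x d c := by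
    intro c d
    rw [fderiv_clm_apply h2 (differentiableAt_const c)]
    simp
  rw [h3, h3]
  have h4 : IsSymmSndFDerivAt ℝ ψ x := (h.contDiffAt).isSymmSndFDerivAt (by
    simp only [minSmoothness_of_isRCLikeNormedField]
    exact WithTop.coe_le_coe.mpr (OrderTop.le_top _))
  exact h4 a b

theorem hlm_int {f g : E n → ℝ} (hf : Continuous f) (hg : Continuous g)
    (hc : HasCompactSupport g) : Integrable fun x => f x * g x :=
  (hf.mul hg).integrable_of_hasCompactSupport hc.mul_left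

theorem hlm_ibp {f g : E n → ℝ} (hf : ContDiff ℝ ∞ f) (hg : ContDiff ℝ ∞ g)
    (hc : HasCompactSupport g) (v : E n) :
    ∫ x, f x * fderiv ℝ g x v = - ∫ x, fderiv ℝ f x v * g x := by
  refine integral_mul_fderiv_eq_neg_fderiv_mul_of_integrable
    (hlm_int (hlm_sD hf v).continuous hg.continuous hc)
    (hlm_int hf.continuous (hlm_sD hg v).continuous (hlm_cD hc v))
    (hlm_int hf.continuous hg.continuous hc)
    (fun x _ => (hf.differentiable (by simp)) x) (fun x _ => (hg.differentiable (by simp)) x)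

theorem hlm_gr (f : E n → ℝ) (x v : E n) : ⟪gradient f x, v⟫ = fderiv ℝ f x v := by
  unfold gradient
  exact InnerProductSpace.toDual_symm_apply

theorem hlm_exp (w : E n) : w = ∑ j : Fin n, ⟪w, bv j⟫ • (bv j : E n) := by
  have h := (EuclideanSpace.basisFun (Fin n) ℝ).sum_repr' w
  conv_lhs => rw [← h]
  refine Finset.sum_congr rfl fun j _ => ?_
  rw [real_inner_comm]
  simp [bv]

theorem hlm_fd (φ a : E n → ℝ) (x : E n) :
    fderiv ℝ φ x (gradient a x) = ∑ j : Fin n, fderiv ℝ a x (bv j) * fderiv ℝ φ x (bv j) := by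
  conv_lhs => rw [hlm_exp (gradient a x)]
  rw [map_sum]
  refine Finset.sum_congr rfl fun j _ => ?_
  rw [map_smul, hlm_gr, smul_eq_mul]

theorem hlm_lps {X : E n → ℝ} (h : ContDiff ℝ ∞ X) : ContDiff ℝ ∞ (lp X) := by
  unfold Pool.Agent.H48.RG.lp
  exact ContDiff.sum fun i _ => hlm_sD (hlm_sD h _) _

theorem hlm_z {ψ : E n → ℝ} (a : E n) {x : E n} (hx : x ∉ tsupport ψ) :
    fderiv ℝ ψ x a = 0 := by
  have h1 : x ∉ tsupport fun y => fderiv ℝ ψ y a :=
    fun h => hx (tsupport_fderiv_apply_subset ℝ a h)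
  exact image_eq_zero_of_notMem_tsupport (f := fun y => fderiv ℝ ψ y a) h1

theorem hlm_lpz {X : E n → ℝ} {x : E n} (hx : x ∉ tsupport X) : lp X x = 0 := by
  unfold Pool.Agent.H48.RG.lp
  exact Finset.sum_eq_zero fun i _ => hlm_z _ fun h2 => hx (tsupport_fderiv_apply_subset ℝ _ h2)

theorem hlm_gz {a : E n → ℝ} {x : E n} (hx : x ∉ tsupport a) : gradient a x = 0 := by
  rw [hlm_exp (gradient a x)]
  refine Finset.sum_eq_zero fun j _ => ?_
  rw [hlm_gr, hlm_z _ hx, zero_smul]

theorem hlm_gc {a : E n → ℝ} (h : ContDiff ℝ ∞ a) : Continuous (gradient a) := by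
  have h1 : Continuous (fderiv ℝ a) := h.continuous_fderiv (by simp)
  exact (InnerProductSpace.toDual ℝ (E n)).symm.continuous.comp h1

theorem hlm_bv (i : Fin n) : ‖(bv i : E n)‖ = 1 := by
  simp [bv]

theorem hlm_df {X : E n → ℝ} (hX : ContDiff ℝ ∞ X) (i : Fin n) :
    DF (fun x => lp X x • (bv i : E n) - gradient (fun y => fderiv ℝ X y (bv i)) x) := by
  intro φ hφ
  obtain ⟨hs, hc, -⟩ := hφ
  have e : ∀ x, fderiv ℝ φ x (lp X x • (bv i : E n) -
      gradient (fun y => fderiv ℝ X y (bv i)) x) =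
      ∑ j : Fin n, (fderiv ℝ (fun y => fderiv ℝ X y (bv j)) x (bv j) * fderiv ℝ φ x (bv i) -
        fderiv ℝ (fun y => fderiv ℝ X y (bv i)) x (bv j) * fderiv ℝ φ x (bv j)) := by
    intro x
    rw [map_sub, map_smul, hlm_fd, Finset.sum_sub_distrib, ← Finset.sum_mul]
    rfl
  simp only [e]
  have i1 : ∀ j : Fin n, Integrable fun x =>
      fderiv ℝ (fun y => fderiv ℝ X y (bv j)) x (bv j) * fderiv ℝ φ x (bv i) := fun j =>
    hlm_int (hlm_sD (hlm_sD hX _) _).continuous (hlm_sD hs _).continuous (hlm_cD hc _)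
  have i2 : ∀ j : Fin n, Integrable fun x =>
      fderiv ℝ (fun y => fderiv ℝ X y (bv i)) x (bv j) * fderiv ℝ φ x (bv j) := fun j =>
    hlm_int (hlm_sD (hlm_sD hX _) _).continuous (hlm_sD hs _).continuous (hlm_cD hc _)
  have i3 : ∀ j ∈ (Finset.univ : Finset (Fin n)), Integrable fun x =>
      (fderiv ℝ (fun y => fderiv ℝ X y (bv j)) x (bv j) * fderiv ℝ φ x (bv i) -
        fderiv ℝ (fun y => fderiv ℝ X y (bv i)) x (bv j) * fderiv ℝ φ x (bv j)) :=
    fun j _ => (i1 j).sub (i2 j)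
  rw [integral_finset_sum _ i3]
  refine Finset.sum_eq_zero fun j _ => ?_
  rw [integral_sub (i1 j) (i2 j), sub_eq_zero]
  have a1 := hlm_ibp (hlm_sD hX (bv j)) (hlm_sD hs (bv i)) (hlm_cD hc (bv i)) (bv j)
  have a2 := hlm_ibp (hlm_sD hX (bv j)) (hlm_sD hs (bv j)) (hlm_cD hc (bv j)) (bv i)
  have a3 : (∫ x, fderiv ℝ X x (bv j) * fderiv ℝ (fun y => fderiv ℝ φ y (bv i)) x (bv j)) =
      ∫ x, fderiv ℝ X x (bv j) * fderiv ℝ (fun y => fderiv ℝ φ y (bv j)) x (bv i) := by
    refine integral_congr_ae (Eventually.of_forall fun x => ?_)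
    show _ * _ = _ * _
    rw [hlm_comm hs]
  have a4 : (∫ x, fderiv ℝ (fun y => fderiv ℝ X y (bv j)) x (bv i) * fderiv ℝ φ x (bv j)) =
      ∫ x, fderiv ℝ (fun y => fderiv ℝ X y (bv i)) x (bv j) * fderiv ℝ φ x (bv j) := by
    refine integral_congr_ae (Eventually.of_forall fun x => ?_)
    show _ * _ = _ * _
    rw [hlm_comm hX]
  linarith

theorem pf_HLM (hP : T_POT) (hL : T_LPI) : T_HLM := by
  intro n hn
  obtain ⟨C₀, hC₀, hP⟩ := hP n hn
  set V : ℝ := volume.real (closedBall (0 : E n) (3 / 4)) with hV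
  have hV0 : 0 ≤ V := measureReal_nonneg
  refine ⟨C₀ + 4 * (1 + C₀) ^ 2 * V, by positivity, ?_⟩
  intro θ h0 h1 f hf hb i
  obtain ⟨X, hX, hXs, hXd, hXl⟩ := hP θ h0 h1 f hf hb
  have hXc : HasCompactSupport X :=
    (isCompact_closedBall (0 : E n) (3 / 4)).of_isClosed_subset (isClosed_tsupport X) hXs
  have hθn : θ ^ n ≤ 1 := pow_le_one₀ h0.le (by linarith)
  have hlb : ∀ x, |lp X x| ≤ 1 + C₀ := by
    intro x
    have b1 := hXl x
    have b2 := hb x
    have b3 : C₀ * θ ^ n ≤ C₀ := by nlinarith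
    have b4 : |lp X x| ≤ |lp X x - f x| + |f x| := by
      have := abs_add_le (lp X x - f x) (f x)
      rwa [sub_add_cancel] at this
    linarith
  have hlz : ∀ x, x ∉ closedBall (0 : E n) (3 / 4) → lp X x = 0 :=
    fun x hx => hlm_lpz fun h => hx (hXs h)
  set a : E n → ℝ := fun y => fderiv ℝ X y (bv i) with ha
  have has : ContDiff ℝ ∞ a := hlm_sD hX _
  have hat : tsupport a ⊆ closedBall (0 : E n) (3 / 4) :=
    (tsupport_fderiv_apply_subset ℝ _).trans hXs
  have hgz : ∀ x, x ∉ closedBall (0 : E n) (3 / 4) → gradient a x = 0 :=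
    fun x hx => hlm_gz fun h => hx (hat h)
  have hfz : ∀ x, x ∉ closedBall (0 : E n) (3 / 4) → f x = 0 := by
    intro x hx
    refine image_eq_zero_of_notMem_tsupport fun h => hx ?_
    exact closedBall_subset_closedBall (by linarith) (ball_subset_closedBall (hf.2.2 h))
  have hgc : Continuous (gradient a) := hlm_gc has
  have hlc : Continuous (lp X) := (hlm_lps hX).continuous
  have hlcs : HasCompactSupport (lp X) := by
    refine HasCompactSupport.intro (isCompact_closedBall (0 : E n) (3 / 4)) hlz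
  -- the integral of the square of the Laplacian
  have hI1 : Integrable fun x => lp X x ^ 2 := by
    have := hlm_int hlc hlc hlcs
    refine this.congr (Eventually.of_forall fun x => ?_)
    show _ * _ = _
    ring
  have hI2 : Integrable fun x => ‖gradient a x‖ ^ 2 := by
    refine Continuous.integrable_of_hasCompactSupport (by fun_prop) ?_
    refine HasCompactSupport.intro (isCompact_closedBall (0 : E n) (3 / 4)) fun x hx => ?_
    rw [hgz x hx]
    simp
  have hLe : (∫ x, lp X x ^ 2) ≤ (1 + C₀) ^ 2 * V := by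
    have e1 : (∫ x, lp X x ^ 2) = ∫ x in closedBall (0 : E n) (3 / 4), lp X x ^ 2 := by
      symm
      refine setIntegral_eq_integral_of_forall_compl_eq_zero fun x hx => ?_
      rw [hlz x hx]
      simp
    rw [e1]
    have e2 : (∫ x in closedBall (0 : E n) (3 / 4), lp X x ^ 2) ≤
        ∫ x in closedBall (0 : E n) (3 / 4), (1 + C₀) ^ 2 := by
      refine setIntegral_mono hI1.integrableOn ?_ fun x => ?_
      · exact integrableOn_const (by
          exact (isCompact_closedBall (0 : E n) (3 / 4)).measure_lt_top.ne)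
      · have := hlb x
        rw [← sq_abs]
        exact pow_le_pow_left₀ (abs_nonneg _) this 2
    refine e2.trans (le_of_eq ?_)
    rw [setIntegral_const, smul_eq_mul, mul_comm]
  have hGe : (∫ x, ‖gradient a x‖ ^ 2) ≤ (1 + C₀) ^ 2 * V := (hL n X hX hXc i).trans hLe
  have hW : 0 ≤ (1 + C₀) ^ 2 * V := by positivity
  refine ⟨a, fun x => lp X x • (bv i : E n) - gradient a x,
    fun x => (f x - lp X x) • (bv i : E n), has, hat, ?_, ?_, ?_, ?_, hlm_df hX i, ?_, ?_, ?_, ?_, ?_⟩
  · intro x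
    have c1 : |a x| ≤ ‖fderiv ℝ X x‖ * ‖(bv i : E n)‖ := (fderiv ℝ X x).le_opNorm _
    rw [hlm_bv, mul_one] at c1
    have c2 := hXd x
    nlinarith
  · linarith
  · exact (hlc.smul continuous_const).sub hgc
  · intro x hx
    show lp X x • (bv i : E n) - gradient a x = 0
    rw [hlz x hx, hgz x hx]
    simp
  · have d1 : (∫ x, ‖lp X x • (bv i : E n) - gradient a x‖ ^ 2) ≤
        ∫ x, (2 * lp X x ^ 2 + 2 * ‖gradient a x‖ ^ 2) := by
      refine integral_mono_of_nonneg (Eventually.of_forall fun x => by positivity)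
        ((hI1.const_mul 2).add (hI2.const_mul 2)) (Eventually.of_forall fun x => ?_)
      show ‖lp X x • (bv i : E n) - gradient a x‖ ^ 2 ≤ 2 * lp X x ^ 2 + 2 * ‖gradient a x‖ ^ 2
      have d2 := norm_sub_le (lp X x • (bv i : E n)) (gradient a x)
      rw [norm_smul, hlm_bv, mul_one, Real.norm_eq_abs] at d2
      have d3 : ‖lp X x • (bv i : E n) - gradient a x‖ ^ 2 ≤ (|lp X x| + ‖gradient a x‖) ^ 2 :=
        pow_le_pow_left₀ (norm_nonneg _) d2 2
      have d4 := sq_abs (lp X x)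
      nlinarith [sq_nonneg (|lp X x| - ‖gradient a x‖)]
    rw [integral_add (hI1.const_mul 2) (hI2.const_mul 2), integral_const_mul,
      integral_const_mul] at d1
    refine d1.trans ?_
    linarith
  · exact (hf.1.continuous.sub hlc).smul continuous_const
  · intro x hx
    show (f x - lp X x) • (bv i : E n) = 0
    rw [hlz x hx, hfz x hx]
    simp
  · intro x
    show ‖(f x - lp X x) • (bv i : E n)‖ ≤ _
    rw [norm_smul, hlm_bv, mul_one, Real.norm_eq_abs, abs_sub_comm]
    refine (hXl x).trans ?_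
    have : 0 ≤ θ ^ n := by positivity
    nlinarith
  · intro x
    show f x • (bv i : E n) = gradient a x + (lp X x • (bv i : E n) - gradient a x) +
      (f x - lp X x) • (bv i : E n)
    rw [sub_smul]
    abel

end Pool.Agent.H79.RG
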