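import Pool.Agent.H70.RG.Targets

/-! Board reg, row EHAL (helper79). -/

set_option autoImplicit false

namespace Pool.Agent.H79.RG

open MeasureTheory Metric Set Filter Topology Pool.Agent.H87.SN Pool.Agent.H70.RG
open scoped ContDiff

variable {n : ℕ}

/-- equal functions -/
lemma hh_congr {F : Type} [NormedAddCommGroup F] [NormedSpace ℝ F] (U : Set (E n))
    (hU : IsOpen U) (j : ℕ) : ∀ v w : E n → F, (∀ x ∈ U, v x = w x) → HH j v U → HH j w U := by
  induction j with
  | zero =>
    intro v w hvw hv x hx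
    obtain ⟨r, C, γ, h1, h2, h3, h4, h5, h6⟩ := hv x hx
    refine ⟨r, C, γ, h1, h2, h3, h4, h5, fun y hy z hz => ?_⟩
    rw [← hvw y (h5 hy), ← hvw z (h5 hz)]
    exact h6 y hy z hz
  | succ j ih =>
    intro v w hvw hv
    have he : ∀ x ∈ U, v =ᶠ[𝓝 x] w := fun x hx =>
      Filter.eventually_of_mem (hU.mem_nhds hx) hvw
    refine ⟨fun x hx => (hv.1 x hx).congr_of_eventuallyEq (he x hx).symm, fun i => ?_⟩
    refine ih _ _ (fun x hx => ?_) (hv.2 i)
    rw [(he x hx).fderiv_eq]

/-- sums -/
lemma hh_add {F : Type} [NormedAddCommGroup F] [NormedSpace ℝ F] (U : Set (E n))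
    (hU : IsOpen U) (j : ℕ) : ∀ v w : E n → F, HH j v U → HH j w U →
      HH j (fun x => v x + w x) U := by
  induction j with
  | zero =>
    intro v w hv hw x hx
    obtain ⟨r, C, γ, h1, h2, h3, h4, h5, h6⟩ := hv x hx
    obtain ⟨r', C', γ', h1', h2', h3', h4', h5', h6'⟩ := hw x hx
    refine ⟨min (min r r') (1 / 2), C + C', min γ γ', by positivity, by positivity,
      lt_min h3 h3', (min_le_left _ _).trans h4, ?_, fun y hy z hz => ?_⟩
    · exact (ball_subset_ball ((min_le_left _ _).trans (min_le_left _ _))).trans h5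
    · have hyr := ball_subset_ball ((min_le_left _ _).trans (min_le_left _ _)) hy
      have hyr' := ball_subset_ball ((min_le_left _ _).trans (min_le_right _ _)) hy
      have hzr := ball_subset_ball ((min_le_left _ _).trans (min_le_left _ _)) hz
      have hzr' := ball_subset_ball ((min_le_left _ _).trans (min_le_right _ _)) hz
      have hy2 := ball_subset_ball (min_le_right _ _) hy
      have hz2 := ball_subset_ball (min_le_right _ _) hz
      have hyz : ‖y - z‖ ≤ 1 := by
        rw [mem_ball, dist_eq_norm] at hy2 hz2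
        have : y - z = (y - x) - (z - x) := by abel
        rw [this]
        have := norm_sub_le (y - x) (z - x)
        linarith
      have hp : ∀ g : ℝ, 0 < g → min γ γ' ≤ g → ‖y - z‖ ^ g ≤ ‖y - z‖ ^ min γ γ' := by
        intro g hg hle
        rcases (norm_nonneg (y - z)).eq_or_lt with h0 | h0
        · rw [← h0, Real.zero_rpow hg.ne', Real.zero_rpow (lt_min h3 h3').ne']
        · exact Real.rpow_le_rpow_of_exponent_ge h0 hyz hle
      calc ‖v y + w y - (v z + w z)‖ = ‖(v y - v z) + (w y - w z)‖ := by congr 1; abel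
        _ ≤ ‖v y - v z‖ + ‖w y - w z‖ := norm_add_le _ _
        _ ≤ C * ‖y - z‖ ^ γ + C' * ‖y - z‖ ^ γ' :=
            add_le_add (h6 y hyr z hzr) (h6' y hyr' z hzr')
        _ ≤ C * ‖y - z‖ ^ min γ γ' + C' * ‖y - z‖ ^ min γ γ' :=
            add_le_add (mul_le_mul_of_nonneg_left (hp γ h3 (min_le_left _ _)) h2)
              (mul_le_mul_of_nonneg_left (hp γ' h3' (min_le_right _ _)) h2')
        _ = (C + C') * ‖y - z‖ ^ min γ γ' := by ring
  | succ j ih =>
    intro v w hv hw
    refine ⟨fun x hx => (hv.1 x hx).add (hw.1 x hx), fun i => ?_⟩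
    refine hh_congr U hU j _ _ (fun x hx => ?_) (ih _ _ (hv.2 i) (hw.2 i))
    have h : fderiv ℝ (fun x => v x + w x) x = fderiv ℝ v x + fderiv ℝ w x :=
      fderiv_fun_add (hv.1 x hx) (hw.1 x hx)
    rw [h]
    rfl

/-- constants -/
lemma hh_zero {F : Type} [NormedAddCommGroup F] [NormedSpace ℝ F] (U : Set (E n))
    (hU : IsOpen U) (j : ℕ) : HH j (fun _ => (0 : F)) U := by
  induction j with
  | zero =>
    intro x hx
    obtain ⟨r, hr, hrU⟩ := Metric.isOpen_iff.1 hU x hx
    refine ⟨r, 0, 1, hr, le_rfl, one_pos, le_rfl, hrU, fun y _ z _ => ?_⟩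
    rw [sub_self, norm_zero, zero_mul]
  | succ j ih =>
    refine ⟨fun x _ => differentiableAt_const _, fun i => ?_⟩
    refine hh_congr U hU j _ _ (fun x _ => ?_) ih
    rw [fderiv_fun_const]
    rfl

/-- linear maps -/
lemma hh_lin {F F' : Type} [NormedAddCommGroup F] [NormedSpace ℝ F] [NormedAddCommGroup F']
    [NormedSpace ℝ F'] (L : F →L[ℝ] F') (U : Set (E n)) (hU : IsOpen U) (j : ℕ) :
    ∀ v : E n → F, HH j v U → HH j (fun x => L (v x)) U := by
  induction j with
  | zero =>
    intro v hv x hx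
    obtain ⟨r, C, γ, h1, h2, h3, h4, h5, h6⟩ := hv x hx
    refine ⟨r, ‖L‖ * C, γ, h1, by positivity, h3, h4, h5, fun y hy z hz => ?_⟩
    rw [← map_sub]
    refine (L.le_opNorm _).trans ?_
    rw [mul_assoc]
    exact mul_le_mul_of_nonneg_left (h6 y hy z hz) (norm_nonneg _)
  | succ j ih =>
    intro v hv
    refine ⟨fun x hx => L.differentiableAt.comp x (hv.1 x hx), fun i => ?_⟩
    refine hh_congr U hU j _ _ (fun x hx => ?_) (ih _ (hv.2 i))
    have h : fderiv ℝ (fun x => L (v x)) x = L.comp (fderiv ℝ v x) := by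
      have h1 := fderiv_comp x L.differentiableAt (hv.1 x hx)
      rw [ContinuousLinearMap.fderiv] at h1
      exact h1
    rw [h]
    rfl

theorem pf_HAL : T_HAL := by
  intro n F F' _ _ _ _ j U hU
  refine ⟨hh_add U hU j, fun N => ?_, fun L v hv => hh_lin L U hU j v hv⟩
  induction N with
  | zero =>
    intro v _
    refine hh_congr U hU j _ _ (fun x _ => ?_) (hh_zero U hU j)
    rw [Finset.univ_eq_empty, Finset.sum_empty]
  | succ N ih =>
    intro v hv
    refine hh_congr U hU j _ _ (fun x _ => ?_) (hh_add U hU j _ _ (ih (fun a => v a.castSucc)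
      fun a => hv _) (hv (Fin.last N)))
    rw [Fin.sum_univ_castSucc]

end Pool.Agent.H79.RG
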